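import Pool.Agent.H88.MC.Targets

/-!
# The number of alive strings
-/

set_option autoImplicit false

namespace Pool.Agent.H48.E0

open Finset
open Pool.Agent.H88.MC

theorem mem_bits {j : ℕ} : ∀ {t : List ℕ}, t ∈ bits j → t.length = j ∧ ∀ x ∈ t, x ≤ 1 := by
  induction j with
  | zero =>
    intro t ht
    rw [bits, Finset.mem_singleton] at ht
    subst ht
    simp
  | succ j ih =>
    intro t ht
    rw [bits, Finset.mem_union, Finset.mem_image, Finset.mem_image] at ht
    rcases ht with ⟨s, hs, rfl⟩ | ⟨s, hs, rfl⟩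
    · obtain ⟨h1, h2⟩ := ih hs
      refine ⟨by rw [List.length_cons, h1], fun x hx => ?_⟩
      rcases List.mem_cons.1 hx with h | h
      · omega
      · exact h2 x h
    · obtain ⟨h1, h2⟩ := ih hs
      refine ⟨by rw [List.length_cons, h1], fun x hx => ?_⟩
      rcases List.mem_cons.1 hx with h | h
      · omega
      · exact h2 x h

theorem bt_le {t : List ℕ} (h : ∀ x ∈ t, x ≤ 1) (i : ℕ) : bt t i ≤ 1 := by
  unfold bt
  split_ifs with hi
  · rw [List.getD_eq_getElem _ _ (by omega : t.length - 1 - i < t.length)]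
    exact h _ (List.getElem_mem _)
  · exact Nat.zero_le _

theorem bt_zero {t : List ℕ} {i : ℕ} (h : t.length ≤ i) : bt t i = 0 := by
  unfold bt
  rw [if_neg (by omega)]

theorem qv_le (n : ℕ) {t : List ℕ} (h : ∀ x ∈ t, x ≤ 1) (r : ℕ) : qv n t r ≤ 2 * n := by
  unfold qv
  calc ∑ i ∈ range (2 * n), bt t (2 * n * r + i) ≤ ∑ _i ∈ range (2 * n), 1 :=
        Finset.sum_le_sum fun i _ => bt_le h _
    _ = 2 * n := by simp

theorem card_off {n : ℕ} (U : Finset (Fin n)) :
    #{ξ : Fin n → Bool | ∀ v ∈ U, ξ v = false} ≤ 2 ^ (n - #U) := by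
  classical
  have h1 : ({ξ : Fin n → Bool | ∀ v ∈ U, ξ v = false} : Finset (Fin n → Bool)) =
      Fintype.piFinset (fun v => if v ∈ U then {false} else (univ : Finset Bool)) := by
    ext ξ
    rw [Finset.mem_filter, Fintype.mem_piFinset]
    constructor
    · rintro ⟨-, h⟩ v
      by_cases hv : v ∈ U
      · rw [if_pos hv, Finset.mem_singleton]
        exact h v hv
      · rw [if_neg hv]
        exact Finset.mem_univ _
    · intro h
      refine ⟨Finset.mem_univ _, fun v hv => ?_⟩
      have h2 := h v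
      rw [if_pos hv, Finset.mem_singleton] at h2
      exact h2
  rw [h1, Fintype.card_piFinset]
  have h2 : ∀ v : Fin n, #(if v ∈ U then {false} else (univ : Finset Bool)) =
      if v ∈ U then 1 else 2 := by
    intro v
    split_ifs <;> simp
  rw [Finset.prod_congr rfl fun v _ => h2 v, Finset.prod_ite]
  simp only [Finset.prod_const_one, one_mul, Finset.prod_const]
  refine Nat.pow_le_pow_right (by norm_num) ?_
  have h3 : (univ.filter fun v : Fin n => ¬ v ∈ U) = Uᶜ := by
    ext v
    simp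
  rw [h3, Finset.card_compl, Fintype.card_fin]

open scoped Classical in
/-- the bound for one fibre -/
theorem fibre (hIN : T_IN) (hCN : T_CN) (hCM : T_CM) {n k D n0 j : ℕ} {G : SimpleGraph (Fin n)}
    (hk : 1 ≤ k) (hD : 1 ≤ D) (hn0 : n0 ≤ n) (hj : j ≤ 10 * n) (F : Finset (List ℕ))
    (q a b e : ℕ) (hF : ∀ t ∈ F, t ∈ bits j ∧ Alive k D n0 G t ∧ qv n t 0 = q ∧ qv n t 1 = a ∧
      qv n t 2 = b ∧ qv n t 3 = e) :
    (#F : ℝ) ≤ 1 + 2 ^ ((n : ℝ) - n / (2 * D)) + 2 ^ ((n : ℝ) - n / (8 * k * D)) +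
        2 * numBal (3 / k) G := by
  have hp1 : (0 : ℝ) < 2 ^ ((n : ℝ) - n / (2 * D)) := Real.rpow_pos_of_pos (by norm_num) _
  have hp2 : (0 : ℝ) < 2 ^ ((n : ℝ) - n / (8 * k * D)) := Real.rpow_pos_of_pos (by norm_num) _
  have hp3 : (0 : ℝ) ≤ 2 * numBal (3 / k) G := by positivity
  rcases F.eq_empty_or_nonempty with hE | ⟨t0, ht0⟩
  · rw [hE, Finset.card_empty, Nat.cast_zero]
    positivity
  set U : Finset (Fin n) := hset n D q a b e with hU
  have hUS : ∀ t ∈ F, US n D t = U := by
    intro t ht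
    obtain ⟨-, -, h1, h2, h3, h4⟩ := hF t ht
    unfold US
    rw [h1, h2, h3, h4]
  have hAl : ∀ t ∈ F, Pat n t ∧
    (8 * n < t.length → n ≤ 2 * D * #(US n D t) ∧ Thin k G (US n D t) ∧
      ∀ v ∈ US n D t, xi n t v = false) ∧
    (9 * n < t.length → (∀ v, v ∉ US n D t → up n t v = false) ∧
      (CA k D G (US n D t) (xi n t) (up n t) (t.length - 9 * n) ∨ CB k G (US n D t) (xi n t))) := by
    intro t ht
    rcases (hF t ht).2.1 with h | h
    · omega
    · exact h
  have hinj : Set.InjOn (fun t => (xi n t, up n t)) (F : Set (List ℕ)) := by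
    intro t ht t' ht' h
    rw [Finset.mem_coe] at ht ht'
    obtain ⟨h0, -, h1, h2, h3, h4⟩ := hF t ht
    obtain ⟨h0', -, h1', h2', h3', h4'⟩ := hF t' ht'
    have h5 : xi n t = xi n t' := congrArg Prod.fst h
    have h6 : up n t = up n t' := congrArg Prod.snd h
    refine hIN n j t t' hj h0 h0' (hAl t ht).1 (hAl t' ht').1 (fun r hr => ?_) h5 h6
    interval_cases r
    · rw [h1, h1']
    · rw [h2, h2']
    · rw [h3, h3']
    · rw [h4, h4']
  have hcard : #F = #(F.image fun t => (xi n t, up n t)) :=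
    (Finset.card_image_of_injOn hinj).symm
  have hlen : ∀ t ∈ F, t.length = j := fun t ht => (mem_bits (hF t ht).1).1
  have hup : ∀ t ∈ F, ∀ v : Fin n, j ≤ 9 * n + v.1 → up n t v = false := by
    intro t ht v hv
    unfold up
    rw [bt_zero (by rw [hlen t ht]; exact hv)]
    simp
  rcases le_or_gt j (9 * n) with h9 | h9
  · rcases le_or_gt j (8 * n) with h8 | h8
    · -- first case
      have hsub : (F.image fun t => (xi n t, up n t)) ⊆ {((fun _ => false), fun _ => false)} := by
        intro p hp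
        obtain ⟨t, ht, rfl⟩ := Finset.mem_image.1 hp
        rw [Finset.mem_singleton]
        refine Prod.ext (funext fun v => ?_) (funext fun v => hup t ht v (by omega))
        show xi n t v = false
        unfold xi
        rw [bt_zero (by rw [hlen t ht]; omega)]
        simp
      have h1 := Finset.card_le_card hsub
      rw [Finset.card_singleton, ← hcard] at h1
      have h2 : (#F : ℝ) ≤ 1 := by exact_mod_cast h1
      linarith
    · -- second case
      have hfacts := (hAl t0 ht0).2.1 (by rw [hlen t0 ht0]; exact h8)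
      rw [hUS t0 ht0] at hfacts
      have hsub : (F.image fun t => (xi n t, up n t)) ⊆
          ({ξ : Fin n → Bool | ∀ v ∈ U, ξ v = false} : Finset (Fin n → Bool)) ×ˢ
            {fun _ => false} := by
        intro p hp
        obtain ⟨t, ht, rfl⟩ := Finset.mem_image.1 hp
        rw [Finset.mem_product]
        refine ⟨?_, ?_⟩
        · rw [Finset.mem_filter]
          refine ⟨Finset.mem_univ _, fun v hv => ?_⟩
          have := ((hAl t ht).2.1 (by rw [hlen t ht]; exact h8)).2.2
          rw [hUS t ht] at this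
          exact this v hv
        · rw [Finset.mem_singleton]
          exact funext fun v => hup t ht v (by omega)
      have h1 := Finset.card_le_card hsub
      rw [Finset.card_product, Finset.card_singleton, mul_one, ← hcard] at h1
      have h2 : (#F : ℝ) ≤ 2 ^ ((n : ℝ) - n / (2 * D)) := by
        have h3 : #F ≤ 2 ^ (n - #U) := h1.trans (card_off U)
        have hUn : #U ≤ n := by
          have := Finset.card_le_univ U
          rwa [Fintype.card_fin] at this
        have h4 : (#F : ℝ) ≤ (2 : ℝ) ^ (n - #U) := by exact_mod_cast h3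
        refine h4.trans ?_
        rw [← Real.rpow_natCast]
        refine Real.rpow_le_rpow_of_exponent_le (by norm_num) ?_
        rw [Nat.cast_sub hUn]
        have hD0 : (0 : ℝ) < D := by exact_mod_cast hD
        have h5 : (n : ℝ) ≤ 2 * D * #U := by exact_mod_cast hfacts.1
        have h6 : (n : ℝ) / (2 * D) ≤ #U := by
          rw [div_le_iff₀ (by positivity)]
          linarith
        linarith
      linarith
  · -- third case
    have hfacts := (hAl t0 ht0).2.1 (by rw [hlen t0 ht0]; omega)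
    rw [hUS t0 ht0] at hfacts
    set S1 : Finset ((Fin n → Bool) × (Fin n → Bool)) :=
      {q : (Fin n → Bool) × (Fin n → Bool) | (∀ v ∈ U, q.1 v = false) ∧
      (∀ v, v ∉ U → q.2 v = false) ∧ (∀ v : Fin n, (j - 9 * n) ≤ v.1 → q.2 v = false) ∧
      CA k D G U q.1 q.2 (j - 9 * n)} with hS1
    set S2 : Finset ((Fin n → Bool) × (Fin n → Bool)) :=
      {q : (Fin n → Bool) × (Fin n → Bool) | (∀ v ∈ U, q.1 v = false) ∧
      (∀ v, v ∉ U → q.2 v = false) ∧ CB k G U q.1} with hS2
    have hsub : (F.image fun t => (xi n t, up n t)) ⊆ S1 ∪ S2 := by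
      intro p hp
      obtain ⟨t, ht, rfl⟩ := Finset.mem_image.1 hp
      have e1 := ((hAl t ht).2.1 (by rw [hlen t ht]; omega)).2.2
      have e2 := (hAl t ht).2.2 (by rw [hlen t ht]; exact h9)
      rw [hUS t ht] at e1 e2
      rw [hlen t ht] at e2
      rw [Finset.mem_union]
      rcases e2.2 with e3 | e3
      · left
        rw [hS1, Finset.mem_filter]
        exact ⟨Finset.mem_univ _, e1, e2.1, fun v hv => hup t ht v (by omega), e3⟩
      · right
        rw [hS2, Finset.mem_filter]
        exact ⟨Finset.mem_univ _, e1, e2.1, e3⟩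
    have h1 := (Finset.card_le_card hsub).trans (Finset.card_union_le _ _)
    rw [← hcard] at h1
    have h2 := hCN n k D (j - 9 * n) G U hk hD
    have h3 := hCM n k G U hk hfacts.2.1
    have h4 : (#F : ℝ) ≤ #S1 + #S2 := by exact_mod_cast h1
    have h5 : (#S2 : ℝ) ≤ 2 * numBal (3 / k) G := by exact_mod_cast h3
    have h6 : (#S1 : ℝ) ≤ 2 ^ ((n : ℝ) - n / (8 * k * D)) := h2
    linarith

theorem pf_ct (hIN : T_IN) (hCN : T_CN) (hCM : T_CM) : T_CT := by
  classical
  intro n k D n0 j G hk hD hn0 hn hj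
  set B : ℝ := 1 + 2 ^ ((n : ℝ) - n / (2 * D)) + 2 ^ ((n : ℝ) - n / (8 * k * D)) +
        2 * numBal (3 / k) G with hB
  have hB0 : 0 ≤ B := by positivity
  set F : Finset (List ℕ) := {t ∈ bits j | Alive k D n0 G t} with hF
  set Φ : List ℕ → (ℕ × ℕ) × (ℕ × ℕ) := fun t => ((qv n t 0, qv n t 1), (qv n t 2, qv n t 3))
    with hΦ
  have h1 : #F ≤ ⌊B⌋₊ * #(F.image Φ) := by
    refine Finset.card_le_mul_card_image _ _ fun p _ => ?_
    refine Nat.le_floor ?_
    refine fibre hIN hCN hCM hk hD hn0 hj _ p.1.1 p.1.2 p.2.1 p.2.2 fun t ht => ?_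
    rw [Finset.mem_filter, hF, Finset.mem_filter] at ht
    obtain ⟨⟨e1, e2⟩, e3⟩ := ht
    refine ⟨e1, e2, ?_, ?_, ?_, ?_⟩ <;> rw [← e3]
  have h2 : F.image Φ ⊆ (range (2 * n + 1) ×ˢ range (2 * n + 1)) ×ˢ
      (range (2 * n + 1) ×ˢ range (2 * n + 1)) := by
    intro p hp
    obtain ⟨t, ht, rfl⟩ := Finset.mem_image.1 hp
    rw [hF, Finset.mem_filter] at ht
    have h3 := fun r => qv_le n (mem_bits ht.1).2 r
    simp only [hΦ, Finset.mem_product, Finset.mem_range]
    have a0 := h3 0
    have a1 := h3 1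
    have a2 := h3 2
    have a3 := h3 3
    exact ⟨⟨by omega, by omega⟩, by omega, by omega⟩
  have h3 := Finset.card_le_card h2
  simp only [Finset.card_product, Finset.card_range] at h3
  have h4 : (#F : ℝ) ≤ (⌊B⌋₊ : ℝ) * #(F.image Φ) := by exact_mod_cast h1
  have h5 : (#(F.image Φ) : ℝ) ≤ (2 * n + 1) ^ 4 := by
    calc (#(F.image Φ) : ℝ) ≤ (((2 * n + 1) * (2 * n + 1) * ((2 * n + 1) * (2 * n + 1)) : ℕ) : ℝ) := by
          exact_mod_cast h3
      _ = (2 * n + 1) ^ 4 := by push_cast; ring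
  calc (#F : ℝ) ≤ (⌊B⌋₊ : ℝ) * #(F.image Φ) := h4
    _ ≤ B * (2 * n + 1) ^ 4 := mul_le_mul (Nat.floor_le hB0) h5 (by positivity) hB0
    _ = _ := mul_comm _ _

end Pool.Agent.H48.E0
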