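import Pool.Agent.H88.MC.Targets

/-!
# A maximum cut is locally optimal
-/

set_option autoImplicit false

namespace Pool.Agent.H48.E0

open Finset
open Pool.Agent.H88.MC

theorem flip_form {n : ℕ} (A : Fin n → Fin n → ℤ) (hA : ∀ u w, A u w = A w u) (v : Fin n)
    (hv : A v v = 0) (s t : Fin n → ℤ) (ht : ∀ u, t u = s u - 2 * (if u = v then s u else 0)) :
    ∑ u, ∑ w, A u w * (t u * t w) =
      (∑ u, ∑ w, A u w * (s u * s w)) - 4 * (s v * ∑ w, A v w * s w) := by
  have h1 : ∀ u, ∑ w, A u w * t w = (∑ w, A u w * s w) - 2 * (A u v * s v) := by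
    intro u
    have h2 : ∀ w, A u w * t w = A u w * s w - 2 * (if w = v then A u w * s w else 0) := by
      intro w
      rw [ht w]
      split_ifs <;> ring
    rw [Finset.sum_congr rfl fun w _ => h2 w, Finset.sum_sub_distrib, ← Finset.mul_sum,
      Finset.sum_ite_eq' Finset.univ v]
    simp
  have h3 : ∀ r : Fin n → ℤ, ∀ u, ∑ w, A u w * (r u * r w) = r u * ∑ w, A u w * r w := by
    intro r u
    rw [Finset.mul_sum]
    exact Finset.sum_congr rfl fun w _ => by ring
  rw [Finset.sum_congr rfl fun u _ => h3 t u, Finset.sum_congr rfl fun u _ => h3 s u]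
  have h4 : ∀ u, t u * ∑ w, A u w * t w = s u * (∑ w, A u w * s w) - 2 * s v * (A v u * s u) -
      2 * (if u = v then s u * ((∑ w, A u w * s w) - 2 * (A u v * s v)) else 0) := by
    intro u
    rw [h1 u, ht u, hA v u]
    split_ifs <;> ring
  rw [Finset.sum_congr rfl fun u _ => h4 u, Finset.sum_sub_distrib, Finset.sum_sub_distrib,
    ← Finset.mul_sum, ← Finset.mul_sum, Finset.sum_ite_eq' Finset.univ v]
  simp only [Finset.mem_univ, if_true, hv]
  ring

theorem sg_ne (b c : Bool) : 2 * (if b ≠ c then (1 : ℤ) else 0) = 1 - sg b * sg c := by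
  cases b <;> cases c <;> simp [sg]

theorem two_cutv {n : ℕ} (G : SimpleGraph (Fin n)) (y : Fin n → Bool) :
    2 * (cutv G y : ℤ) = ∑ u, ∑ w ∈ nb G u, (1 - sg (y u) * sg (y w)) := by
  unfold cutv
  push_cast
  rw [Finset.mul_sum]
  refine Finset.sum_congr rfl fun u _ => ?_
  rw [Finset.card_filter]
  push_cast
  rw [Finset.mul_sum]
  exact Finset.sum_congr rfl fun w _ => sg_ne _ _

open scoped Classical in
theorem sum_nb {n : ℕ} (G : SimpleGraph (Fin n)) (u : Fin n) (f : Fin n → ℤ) :
    ∑ w ∈ nb G u, f w = ∑ w, (if G.Adj u w then (1 : ℤ) else 0) * f w := by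
  unfold nb
  rw [Finset.sum_filter]
  refine Finset.sum_congr rfl fun w _ => ?_
  split_ifs <;> ring

theorem pf_lo : T_LO := by
  classical
  intro n G y hy v
  set z : Fin n → Bool := Function.update y v (!y v) with hz
  have hzs : ∀ u, sg (z u) = sg (y u) - 2 * (if u = v then sg (y u) else 0) := by
    intro u
    rw [hz]
    by_cases h : u = v
    · subst h
      rw [Function.update_self, if_pos rfl]
      cases y u <;> simp [sg]
    · rw [Function.update_of_ne h, if_neg h]
      ring
  have key := flip_form (fun u w => if G.Adj u w then (1 : ℤ) else 0)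
    (fun u w => by simp only [G.adj_comm u w]) v (by simp) (fun u => sg (y u))
    (fun u => sg (z u)) hzs
  have h1 := hy z
  have h2 := two_cutv G z
  have h3 := two_cutv G y
  simp only [sum_nb, mul_sub, mul_one, Finset.sum_sub_distrib] at h2 h3
  have h4 : ay G y v = ∑ w, (if G.Adj v w then (1 : ℤ) else 0) * sg (y w) := by
    unfold ay
    exact sum_nb G v _
  rw [h4]
  have h5 : (cutv G z : ℤ) ≤ cutv G y := by exact_mod_cast h1
  linarith

end Pool.Agent.H48.E0
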